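import Pool.Agent.Lib.helper7.OrdHom

set_option autoImplicit false

namespace Pool.Agent.H.MP_8d5739_co

/-- set partitions of `[n]` other than the discrete one, with all blocks of size at most `k` -/
def PiLe (n k : ℕ) : Set (Setoid (Fin n)) := {p | p ≠ ⊥ ∧ ∀ x, {y | p x y}.ncard ≤ k}

end Pool.Agent.H.MP_8d5739_co
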