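import Pool.Agent.H.MP_8d5739_co.A
import Pool.Agent.H.MP_8d5739_co.Defs
import Pool.Agent.Lib.helper7.Tor2

set_option autoImplicit false

namespace Pool.Agent.H.MP_8d5739_co

open Finset Pool.Agent.Lib.helper7.OrdHom

attribute [local irreducible] sg rt pb tau

def qq (S : Finset ℕ) : Setoid (Fin 9) :=
  Relation.EqvGen.setoid fun x y : Fin 9 => (x : ℕ) + 9 * y ∈ S

def ES (p : Setoid (Fin 9)) : Set ℕ := {e | ∃ x y : Fin 9, x < y ∧ p x y ∧ e = x + 9 * y}

noncomputable def gg (p : Setoid (Fin 9)) : ℕ := sInf (ES p)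

def ss (i : Fin 140) (t : Fin 5) : ℕ := sg i t

theorem qle (i : Fin 140) (m : ℕ) (hE : E i m) (S : Finset (Fin 5))
    (hS : ∀ u ∈ S, m.testBit u = true) {x y : Fin 9} (h : qq (S.image (ss i)) x y) :
    rt i m x = rt i m y := by
  refine (Setoid.eqvGen_le (s := Setoid.ker fun z : Fin 9 => rt i m z) ?_ :
    qq (S.image (ss i)) ≤ _) h
  intro x y hxy
  obtain ⟨u, hu, e⟩ := mem_image.mp hxy
  have := hE u u.2 (hS u hu)
  rw [ss] at e
  rw [e, show ((x : ℕ) + 9 * y) % 9 = x by omega, show ((x : ℕ) + 9 * y) / 9 = y by omega] at this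
  exact this

def lo (i : Fin 140) (t : Fin 5) : Fin 9 := ⟨sg i t % 9, Nat.mod_lt _ (by decide)⟩

def hi (i : Fin 140) (t : Fin 5) : Fin 9 := ⟨sg i t / 9, ((F0 i i.2).2.1 t t.2).2⟩

theorem lo_lt (i : Fin 140) (t : Fin 5) : lo i t < hi i t := ((F0 i i.2).2.1 t t.2).1

theorem q_rel (i : Fin 140) {S : Finset (Fin 5)} {t : Fin 5} (h : t ∈ S) :
    qq (S.image (ss i)) (lo i t) (hi i t) :=
  Relation.EqvGen.rel _ _ (mem_image.mpr ⟨t, h, (Nat.mod_add_div _ _).symm⟩)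

theorem h1 (i : Fin 140) (S T : Finset (Fin 5)) (h : S ⊂ T) :
    qq (S.image (ss i)) < qq (T.image (ss i)) := by
  refine lt_of_le_of_ne (Setoid.eqvGen_mono fun x y hxy => image_subset_image h.subset hxy)
    fun e => ?_
  obtain ⟨j, hj, hj'⟩ := exists_of_ssubset h
  have := q_rel i hj
  rw [← e] at this
  have hb : ∀ j u : Fin 5, u ≠ j → (31 - 2 ^ (j : ℕ)).testBit u = true := by decide
  exact (F3 i i.2 j j.2).2
    (qle i _ (F3 i i.2 j j.2).1 S (fun u hu => hb j u fun e => hj' (e ▸ hu)) this)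

theorem h2 (i : Fin 140) (S : Finset (Fin 5)) (h : S.Nonempty) :
    qq (S.image (ss i)) ∈ PiLe 9 3 := by
  obtain ⟨j, hj⟩ := h
  refine ⟨fun e => ?_, fun x => le_trans ?_ ((F0 i i.2).2.2 x)⟩
  · have := q_rel i hj
    rw [e] at this
    exact (lo_lt i j).ne this
  · rw [← Set.ncard_coe_finset]
    refine Set.ncard_le_ncard (fun y hy => ?_) (Set.toFinite _)
    have hb : ∀ u : Fin 5, (31 : ℕ).testBit u = true := by decide
    simpa using qle i 31 (F0 i i.2).1 S (fun u _ => hb u) hy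

theorem h3 (i : Fin 140) (S : Finset (Fin 5)) (t : Fin 5) (ht : t ∈ S) (h : ∀ u ∈ S, u ≤ t) :
    gg (qq (S.image (ss i))) = ss i t := by
  have hm : ss i t ∈ ES (qq (S.image (ss i))) :=
    ⟨_, _, lo_lt i t, q_rel i ht, (Nat.mod_add_div _ _).symm⟩
  refine le_antisymm (Nat.sInf_le hm) (le_csInf ⟨_, hm⟩ ?_)
  rintro _ ⟨x, y, hxy, hq, rfl⟩
  have hb : ∀ t u : Fin 5, u ≤ t → (2 ^ ((t : ℕ) + 1) - 1).testBit u = true := by decide
  exact (F4 i i.2 t t.2).2 y y.2 x hxy (qle i _ (F4 i i.2 t t.2).1 S (fun u hu => hb t u (h u hu)) hq)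

theorem ES_ne {p : Setoid (Fin 9)} (h : p ≠ ⊥) : (ES p).Nonempty := by
  by_contra hn
  refine h (le_bot_iff.mp fun x y hxy => ?_)
  rcases lt_trichotomy x y with h | h | h
  · exact absurd ⟨_, x, y, h, hxy, rfl⟩ hn
  · exact h
  · exact absurd ⟨_, y, x, h, p.symm' hxy, rfl⟩ hn

theorem hg (x : Setoid (Fin 9)) (hx : x ∈ PiLe 9 3) (y : Setoid (Fin 9)) (h : x ≤ y) :
    gg y ≤ gg x := by
  obtain ⟨a, b, h1, h2, h3⟩ := Nat.sInf_mem (ES_ne hx.1)
  exact Nat.sInf_le ⟨a, b, h1, h h2, h3⟩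

theorem inv0 {α : Type} [Fintype α] (t : α → α) (a1 : ∀ w, t w ≠ w) (a2 : ∀ w, t (t w) = w)
    (F : α → ZMod 2) (h : ∀ w, F (t w) = F w) : ∑ w, F w = 0 :=
  sum_involution (fun w _ => t w) (fun w _ => by rw [h, CharTwo.add_self_eq_zero])
    (fun w _ _ => a1 w) (fun _ _ => mem_univ _) fun w _ => a2 w

theorem hr (f : (Fin 4 → ℕ) → ZMod 2) : ∑ i, ∑ v : Fin 5, f (ss i ∘ v.succAbove) = 0 := by
  rw [← Fintype.sum_prod_type']
  exact inv0 tau (fun ⟨i, v⟩ => (F5 i v).2.1) (fun ⟨i, v⟩ => (F5 i v).1) _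
    fun ⟨i, v⟩ => congrArg f (funext (F5 i v).2.2)

theorem hf (a : Fin 4 → ℕ) (h : ¬ Function.Injective a) : ph a = 0 := by
  refine if_neg fun ⟨h1, h2, h3, _⟩ => h (StrictAnti.injective ?_)
  rw [Fin.strictAnti_iff_succ_lt]
  intro i; fin_cases i
  exacts [h1, h2, h3]

theorem no4 {p : Setoid (Fin 9)} (hp : p ∈ PiLe 9 3) {l h l' h' l'' h'' : Fin 9} (a : p l h)
    (b : p l' h') (c : p l'' h'') (o1 : l < h) (o2 : h < h') (o3 : h' < h'') :
    (uu l h l' h').testBit l'' = false := by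
  rw [uu]
  split_ifs with e
  · have e1 : p l h' := by
      rcases e with e | e <;> rw [Fin.val_inj] at e <;> subst e
      exacts [b, p.trans' a b]
    by_contra hn
    have e2 : p l l'' := by
      simp only [Nat.testBit_or, Nat.testBit_two_pow, Bool.or_eq_false_iff, decide_eq_false_iff_not,
        Fin.val_inj, not_and_or, not_not] at hn
      rcases hn with (rfl | rfl) | rfl
      exacts [p.refl' _, a, e1]
    have : ({l, h, h', h''} : Set (Fin 9)).ncard ≤ 3 := by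
      refine le_trans (Set.ncard_le_ncard ?_ (Set.toFinite _)) (hp.2 l)
      rintro y (rfl | rfl | rfl | rfl)
      exacts [p.refl' _, a, e1, p.trans' e2 c]
    rw [Set.ncard_insert_of_notMem (by simp; omega), Set.ncard_insert_of_notMem (by simp; omega),
      Set.ncard_pair o3.ne] at this
    omega
  · simp

theorem xr_even (a : Fin 5 → ℕ) (h : StrictAnti a) (e : xr (a 0) (a 1) (a 2) (a 3) (a 4) = false) :
    2 ∣ Dl ph a := by
  have h0 : a 1 < a 0 := h (by decide)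
  have h1 : a 2 < a 1 := h (by decide)
  have h2 : a 3 < a 2 := h (by decide)
  have h3 : a 4 < a 3 := h (by decide)
  have key : ∀ x y z w : ℕ, y < x → z < y → w < z → ph ![x, y, z, w] = if pb x y z w then 1 else 0 :=
    fun x y z w h1 h2 h3 => if_congr (by simp [h1, h2, h3]) rfl rfl
  have : Dl ph a = (-1) ^ 0 * ph ![a 1, a 2, a 3, a 4] + (-1) ^ 1 * ph ![a 0, a 2, a 3, a 4]
      + (-1) ^ 2 * ph ![a 0, a 1, a 3, a 4] + (-1) ^ 3 * ph ![a 0, a 1, a 2, a 4]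
      + (-1) ^ 4 * ph ![a 0, a 1, a 2, a 3] := Fin.sum_univ_five _
  rw [this, key _ _ _ _ h1 h2 h3, key _ _ _ _ (h1.trans h0) h2 h3, key _ _ _ _ h0 (h2.trans h1) h3,
    key _ _ _ _ h0 h1 (h3.trans h2), key _ _ _ _ h0 h1 h2]
  rw [xr] at e
  revert e
  generalize pb (a 1) (a 2) (a 3) (a 4) = b0
  generalize pb (a 0) (a 2) (a 3) (a 4) = b1
  generalize pb (a 0) (a 1) (a 3) (a 4) = b2
  generalize pb (a 0) (a 1) (a 2) (a 4) = b3
  generalize pb (a 0) (a 1) (a 2) (a 3) = b4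
  revert b0 b1 b2 b3 b4
  decide

theorem GG (h4 : ℕ) (h : h4 < 5) (l4 : ℕ) (hl : l4 < h4) : L3 l4 h4 := by
  by_cases h2 : 2 < h4
  · exact G4 h4 h h2 l4 hl
  · have : (h4 = 1 ∧ l4 = 0) ∨ (h4 = 2 ∧ l4 = 0) ∨ (h4 = 2 ∧ l4 = 1) := by omega
    rcases this with ⟨rfl, rfl⟩ | ⟨rfl, rfl⟩ | ⟨rfl, rfl⟩
    exacts [G1, G2, G3]

theorem he (c : Fin 5 → Setoid (Fin 9)) (hc : StrictMono c) (hP : ∀ i, c i ∈ PiLe 9 3)
    (ha : StrictAnti (gg ∘ c)) : 2 ∣ Dl ph (gg ∘ c) := by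
  choose l h o r e using fun j => Nat.sInf_mem (ES_ne (hP j).1)
  have e' : ∀ j, (gg ∘ c) j = l j + 9 * h j := e
  have r4 : ∀ j, c 4 (l j) (h j) := fun j => hc.monotone (Fin.le_last j) (r j)
  have hh : ∀ i j, i < j → h j < h i := by
    intro i j hij
    have a1 := ha hij
    rw [e', e'] at a1
    have := o i
    have := o j
    by_contra hn
    have a2 : h j = h i := by omega
    have a3 : gg (c j) ≤ l j + 9 * l i := Nat.sInf_le ⟨_, _, by omega,
      (c j).trans' (r j) (a2 ▸ (c j).symm' (hc.monotone hij.le (r i))), rfl⟩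
    have := e' j
    simp only [Function.comp] at this
    omega
  have n4 := fun i j k (h1 : j < i) (h2 : k < j) =>
    no4 (hP 4) (r4 i) (r4 j) (r4 k) (o i) (hh _ _ h1) (hh _ _ h2)
  have b0 := hh 0 1 (by decide)
  have b1 := hh 1 2 (by decide)
  have b2 := hh 2 3 (by decide)
  have b3 := hh 3 4 (by decide)
  refine xr_even _ ha ?_
  simp only [e']
  refine GG (h 4) (by omega) (l 4) (o 4) (h 3) (by omega) b3 (l 3) (o 3) (h 2) (by omega) b2 (l 2)
    (o 2) (n4 4 3 2 (by decide) (by decide)) (h 1) (by omega) b1 (l 1) (o 1) ?_ (h 0) (by omega) b0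
    (l 0) (o 0) ?_
  · simp only [Nat.testBit_or, n4 4 3 1 (by decide) (by decide), n4 4 2 1 (by decide) (by decide),
      n4 3 2 1 (by decide) (by decide), Bool.or_false]
  · simp only [Nat.testBit_or, n4 4 3 0 (by decide) (by decide), n4 4 2 0 (by decide) (by decide),
      n4 3 2 0 (by decide) (by decide), n4 4 1 0 (by decide) (by decide),
      n4 3 1 0 (by decide) (by decide), n4 2 1 0 (by decide) (by decide), Bool.or_false]

theorem main : ∃ x : Hom (PiLe 9 3) 3, x ≠ 0 ∧ 2 • x = 0 := by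
  obtain ⟨c, a1, a2, a3, a4⟩ := cert (PiLe 9 3) 3 ss qq gg h1 h2 h3 hg hr ph hf he F6
  exact gen _ 3 univ c (fun a _ => a1 a) a2 _ a3 a4

end Pool.Agent.H.MP_8d5739_co
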